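import Mathlib

/-!
# Hopf algebras generated by primitive elements

The quotient of a free algebra by relations that are compatible with the comultiplication, counit and
antipode for which the generators are primitive.
-/

open TensorProduct

namespace Pool.Agent.X277.FI

variable {k : Type} [Field k] {ι : Type} (r : FreeAlgebra k ι → FreeAlgebra k ι → Prop)

/-- The quotient of the free algebra by the relations. -/
def PH : Type := RingQuot r

noncomputable instance : Ring (PH r) := inferInstanceAs (Ring (RingQuot r))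

noncomputable instance : Algebra k (PH r) := inferInstanceAs (Algebra k (RingQuot r))

/-- The quotient map. -/
noncomputable def mk : FreeAlgebra k ι →ₐ[k] PH r := RingQuot.mkAlgHom k r

/-- The generators. -/
noncomputable def gen (i : ι) : PH r := mk r (FreeAlgebra.ι k i)

lemma mk_surjective : Function.Surjective (mk r) := RingQuot.mkAlgHom_surjective k r

lemma mk_rel {a b : FreeAlgebra k ι} (h : r a b) : mk r a = mk r b := RingQuot.mkAlgHom_rel k h

variable {r}

/-- Maps out of the quotient. -/
noncomputable def lft {B : Type*} [Ring B] [Algebra k B] (f : ι → B)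
    (h : ∀ a b, r a b → FreeAlgebra.lift k f a = FreeAlgebra.lift k f b) : PH r →ₐ[k] B :=
  RingQuot.liftAlgHom k ⟨FreeAlgebra.lift k f, fun a b hab => h a b hab⟩

lemma lft_mk {B : Type*} [Ring B] [Algebra k B] (f : ι → B)
    (h : ∀ a b, r a b → FreeAlgebra.lift k f a = FreeAlgebra.lift k f b) (a : FreeAlgebra k ι) :
    lft f h (mk r a) = FreeAlgebra.lift k f a :=
  RingQuot.liftAlgHom_mkAlgHom_apply k (FreeAlgebra.lift k f) _ a

@[simp] lemma lft_gen {B : Type*} [Ring B] [Algebra k B] (f : ι → B)
    (h : ∀ a b, r a b → FreeAlgebra.lift k f a = FreeAlgebra.lift k f b) (i : ι) :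
    lft f h (gen r i) = f i := by
  rw [gen, lft_mk, FreeAlgebra.lift_ι_apply]

lemma hom_ext {B : Type*} [Semiring B] [Algebra k B] {f g : PH r →ₐ[k] B}
    (h : ∀ i, f (gen r i) = g (gen r i)) : f = g := by
  have h1 : f.comp (mk r) = g.comp (mk r) := by
    apply FreeAlgebra.hom_ext
    funext i
    exact h i
  apply AlgHom.ext
  intro x
  obtain ⟨a, rfl⟩ := mk_surjective r x
  exact DFunLike.congr_fun h1 a

lemma induct {P : PH r → Prop} (halg : ∀ c : k, P (algebraMap k _ c)) (hgen : ∀ i, P (gen r i))
    (hadd : ∀ a b, P a → P b → P (a + b)) (hmul : ∀ a b, P a → P b → P (a * b)) (x : PH r) :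
    P x := by
  obtain ⟨a, rfl⟩ := mk_surjective r x
  induction a using FreeAlgebra.induction with
  | grade0 c => rw [AlgHom.commutes]; exact halg c
  | grade1 i => exact hgen i
  | mul a b ha hb => rw [map_mul]; exact hmul _ _ ha hb
  | add a b ha hb => rw [map_add]; exact hadd _ _ ha hb

variable (r)

/-- The relations are compatible with the Hopf structure. -/
class PrimRel : Prop where
  comul : ∀ a b, r a b →
    FreeAlgebra.lift k (fun i => gen r i ⊗ₜ[k] (1 : PH r) + 1 ⊗ₜ gen r i) a =
      FreeAlgebra.lift k (fun i => gen r i ⊗ₜ[k] (1 : PH r) + 1 ⊗ₜ gen r i) b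
  counit : ∀ a b, r a b →
    FreeAlgebra.lift k (fun _ : ι => (0 : k)) a = FreeAlgebra.lift k (fun _ : ι => (0 : k)) b
  antipode : ∀ a b, r a b →
    FreeAlgebra.lift k (fun i => MulOpposite.op (-gen r i)) a =
      FreeAlgebra.lift k (fun i => MulOpposite.op (-gen r i)) b

variable [PrimRel r]

/-- comultiplication -/
noncomputable def cm : PH r →ₐ[k] PH r ⊗[k] PH r :=
  lft (fun i => gen r i ⊗ₜ[k] (1 : PH r) + 1 ⊗ₜ gen r i) PrimRel.comul

/-- counit -/
noncomputable def cu : PH r →ₐ[k] k := lft (fun _ => 0) PrimRel.counit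

/-- antipode -/
noncomputable def ap : PH r →ₐ[k] (PH r)ᵐᵒᵖ :=
  lft (fun i => MulOpposite.op (-gen r i)) PrimRel.antipode

/-- antipode as a linear map -/
noncomputable def apl : PH r →ₗ[k] PH r :=
  (MulOpposite.opLinearEquiv k).symm.toLinearMap ∘ₗ (ap r).toLinearMap

@[simp] lemma cm_gen (i : ι) : cm r (gen r i) = gen r i ⊗ₜ[k] (1 : PH r) + 1 ⊗ₜ gen r i :=
  lft_gen _ _ i

@[simp] lemma cu_gen (i : ι) : cu r (gen r i) = 0 := lft_gen _ _ i

lemma apl_gen (i : ι) : apl r (gen r i) = - gen r i := by
  change MulOpposite.unop (ap r (gen r i)) = _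
  rw [ap, lft_gen]
  rfl

lemma apl_mul (a b : PH r) : apl r (a * b) = apl r b * apl r a := by
  change MulOpposite.unop (ap r (a * b)) = MulOpposite.unop (ap r b) * MulOpposite.unop (ap r a)
  rw [map_mul, MulOpposite.unop_mul]

lemma apl_one : apl r 1 = 1 := by
  change MulOpposite.unop (ap r 1) = _
  rw [map_one]
  rfl

lemma apl_algebraMap (c : k) : apl r (algebraMap k _ c) = algebraMap k _ c := by
  rw [Algebra.algebraMap_eq_smul_one, map_smul, apl_one]

/-- The bialgebra structure. -/
noncomputable instance bi : Bialgebra k (PH r) :=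
  Bialgebra.ofAlgHom (cm r) (cu r)
    (by
      apply hom_ext
      intro i
      simp [TensorProduct.add_tmul, TensorProduct.tmul_add, Algebra.TensorProduct.one_def,
        add_assoc])
    (by
      apply hom_ext
      intro i
      simp)
    (by
      apply hom_ext
      intro i
      simp)

/-- `a ⊗ b ↦ S(a) b` -/
noncomputable def sl : PH r ⊗[k] PH r →ₗ[k] PH r :=
  LinearMap.mul' k (PH r) ∘ₗ (apl r).rTensor (PH r)

/-- `a ⊗ b ↦ a S(b)` -/
noncomputable def sr : PH r ⊗[k] PH r →ₗ[k] PH r :=
  LinearMap.mul' k (PH r) ∘ₗ (apl r).lTensor (PH r)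

@[simp] lemma sl_tmul (a b : PH r) : sl r (a ⊗ₜ b) = apl r a * b := rfl

@[simp] lemma sr_tmul (a b : PH r) : sr r (a ⊗ₜ b) = a * apl r b := rfl

lemma sl_mul (t s : PH r ⊗[k] PH r) (c : PH r) (hc : ∀ a b : PH r, a * c * b = a * b * c)
    (h : sl r t = c) :
    sl r (t * s) = c * sl r s := by
  have key : ∀ a b : PH r, sl r (t * (a ⊗ₜ b)) = apl r a * sl r t * b := by
    intro a b
    clear h
    induction t using TensorProduct.induction_on with
    | zero => simp
    | tmul p q =>
      rw [Algebra.TensorProduct.tmul_mul_tmul, sl_tmul, sl_tmul, apl_mul]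
      simp only [mul_assoc]
    | add t t' ht ht' => rw [add_mul, map_add, map_add, ht, ht', mul_add, add_mul]
  induction s using TensorProduct.induction_on with
  | zero => simp
  | tmul a b =>
    rw [key, h, sl_tmul, hc]
    have := hc 1 (apl r a * b)
    rw [one_mul, one_mul] at this
    exact this.symm
  | add s s' hs hs' => rw [mul_add, map_add, map_add, hs, hs', mul_add]

lemma sr_mul (t s : PH r ⊗[k] PH r) (c : PH r) (hc : ∀ a b : PH r, a * c * b = a * b * c)
    (h : sr r s = c) :
    sr r (t * s) = sr r t * c := by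
  have key : ∀ a b : PH r, sr r ((a ⊗ₜ b) * s) = a * sr r s * apl r b := by
    intro a b
    clear h
    induction s using TensorProduct.induction_on with
    | zero => simp
    | tmul p q =>
      rw [Algebra.TensorProduct.tmul_mul_tmul, sr_tmul, sr_tmul, apl_mul]
      simp only [mul_assoc]
    | add t t' ht ht' => rw [mul_add, map_add, map_add, ht, ht', mul_add, add_mul]
  induction t using TensorProduct.induction_on with
  | zero => simp
  | tmul a b =>
    rw [key, h, sr_tmul, hc]
  | add s s' hs hs' => rw [add_mul, map_add, map_add, hs, hs', add_mul]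

lemma sl_cm (x : PH r) : sl r (cm r x) = algebraMap k _ (cu r x) := by
  induction x using induct with
  | halg c =>
    rw [AlgHom.commutes, AlgHom.commutes]
    rw [Algebra.algebraMap_eq_smul_one, map_smul, Algebra.TensorProduct.one_def, sl_tmul, apl_one,
      one_mul]
    rw [Algebra.algebraMap_eq_smul_one]
    rfl
  | hgen i => simp [apl_gen, apl_one]
  | hadd a b ha hb => simp [ha, hb]
  | hmul a b ha hb =>
    rw [map_mul, sl_mul r _ _ _ (fun p q => ?_) ha, hb, map_mul, map_mul]
    rw [mul_assoc, mul_assoc, Algebra.commutes]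

lemma sr_cm (x : PH r) : sr r (cm r x) = algebraMap k _ (cu r x) := by
  induction x using induct with
  | halg c =>
    rw [AlgHom.commutes, AlgHom.commutes]
    rw [Algebra.algebraMap_eq_smul_one, map_smul, Algebra.TensorProduct.one_def, sr_tmul, apl_one,
      one_mul]
    rw [Algebra.algebraMap_eq_smul_one]
    rfl
  | hgen i => simp [apl_gen, apl_one]
  | hadd a b ha hb => simp [ha, hb]
  | hmul a b ha hb =>
    rw [map_mul, sr_mul r _ _ _ (fun p q => ?_) hb, ha, map_mul, map_mul]
    rw [mul_assoc, mul_assoc, Algebra.commutes]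

/-- The Hopf algebra structure. -/
noncomputable instance hopf : HopfAlgebra k (PH r) :=
  { bi r with
    antipode := apl r
    mul_antipode_rTensor_comul := LinearMap.ext fun x => sl_cm r x
    mul_antipode_lTensor_comul := LinearMap.ext fun x => sr_cm r x }

lemma comul_eq (x : PH r) : (Coalgebra.comul x : PH r ⊗[k] PH r) = cm r x := rfl

lemma counit_eq (x : PH r) : (Coalgebra.counit x : k) = cu r x := rfl

end Pool.Agent.X277.FI
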