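import Mathlib
import Pool.Agent.X277.FI.PHopf

/-!
# The Hopf algebra `u(L)` of the Heisenberg Lie algebra in characteristic two
-/

open TensorProduct

set_option linter.unusedSimpArgs false

namespace Pool.Agent.X277.FI

section Rels

variable {k : Type} [Field k]

/-- The relation `X² = 0`. -/
inductive RA (k : Type) [Field k] : FreeAlgebra k (Fin 1) → FreeAlgebra k (Fin 1) → Prop
  | xx : RA k (FreeAlgebra.ι k 0 * FreeAlgebra.ι k 0) 0

/-- The relations `X² = Y² = 0`, `Z² = Z`, `YX = XY + Z`, `Z` central. -/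
inductive RE (k : Type) [Field k] : FreeAlgebra k (Fin 3) → FreeAlgebra k (Fin 3) → Prop
  | xx : RE k (FreeAlgebra.ι k 0 * FreeAlgebra.ι k 0) 0
  | yy : RE k (FreeAlgebra.ι k 1 * FreeAlgebra.ι k 1) 0
  | zz : RE k (FreeAlgebra.ι k 2 * FreeAlgebra.ι k 2) (FreeAlgebra.ι k 2)
  | yx : RE k (FreeAlgebra.ι k 1 * FreeAlgebra.ι k 0)
      (FreeAlgebra.ι k 0 * FreeAlgebra.ι k 1 + FreeAlgebra.ι k 2)
  | zx : RE k (FreeAlgebra.ι k 2 * FreeAlgebra.ι k 0) (FreeAlgebra.ι k 0 * FreeAlgebra.ι k 2)
  | zy : RE k (FreeAlgebra.ι k 2 * FreeAlgebra.ι k 1) (FreeAlgebra.ι k 1 * FreeAlgebra.ι k 2)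

/-- The relations `U² = c Z`, `Z² = Z`, `ZU = UZ`. -/
inductive RH {k : Type} [Field k] (c : k) :
    FreeAlgebra k (Fin 2) → FreeAlgebra k (Fin 2) → Prop
  | uu : RH c (FreeAlgebra.ι k 0 * FreeAlgebra.ι k 0) (c • FreeAlgebra.ι k 1)
  | zz : RH c (FreeAlgebra.ι k 1 * FreeAlgebra.ι k 1) (FreeAlgebra.ι k 1)
  | zu : RH c (FreeAlgebra.ι k 1 * FreeAlgebra.ι k 0) (FreeAlgebra.ι k 0 * FreeAlgebra.ι k 1)

end Rels

section Gen

variable (k : Type) [Field k]

/-- `x` in `A` -/
noncomputable abbrev ax : PH (RA k) := gen (RA k) 0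
/-- `x` -/
noncomputable abbrev ex : PH (RE k) := gen (RE k) 0
/-- `y` -/
noncomputable abbrev ey : PH (RE k) := gen (RE k) 1
/-- `z` -/
noncomputable abbrev ez : PH (RE k) := gen (RE k) 2

variable {k}

/-- `u` -/
noncomputable abbrev hu (c : k) : PH (RH c) := gen (RH c) 0
/-- `z` in `H_c` -/
noncomputable abbrev hz (c : k) : PH (RH c) := gen (RH c) 1

lemma axx : ax k * ax k = 0 := by
  have := mk_rel (RA k) RA.xx
  rwa [map_mul, map_zero] at this

lemma exx : ex k * ex k = 0 := by
  have := mk_rel (RE k) RE.xx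
  rwa [map_mul, map_zero] at this

lemma eyy : ey k * ey k = 0 := by
  have := mk_rel (RE k) RE.yy
  rwa [map_mul, map_zero] at this

lemma ezz : ez k * ez k = ez k := by
  have := mk_rel (RE k) RE.zz
  rwa [map_mul] at this

lemma eyx : ey k * ex k = ex k * ey k + ez k := by
  have := mk_rel (RE k) RE.yx
  rwa [map_mul, map_add, map_mul] at this

lemma ezx : ez k * ex k = ex k * ez k := by
  have := mk_rel (RE k) RE.zx
  rwa [map_mul, map_mul] at this

lemma ezy : ez k * ey k = ey k * ez k := by
  have := mk_rel (RE k) RE.zy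
  rwa [map_mul, map_mul] at this

lemma huu (c : k) : hu c * hu c = c • hz c := by
  have := mk_rel (RH c) RH.uu
  rwa [map_mul, map_smul] at this

lemma hzz (c : k) : hz c * hz c = hz c := by
  have := mk_rel (RH c) RH.zz
  rwa [map_mul] at this

lemma hzu (c : k) : hz c * hu c = hu c * hz c := by
  have := mk_rel (RH c) RH.zu
  rwa [map_mul, map_mul] at this

variable [CharP k 2]

omit [CharP k 2] in
lemma add_self [CharP k 2] {M : Type*} [AddCommGroup M] [Module k M] (t : M) : t + t = 0 := by
  rw [← two_smul k t, (CharTwo.two_eq_zero : (2 : k) = 0), zero_smul]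

omit [CharP k 2] in
lemma neg_self' [CharP k 2] {M : Type*} [AddCommGroup M] [Module k M] (t : M) : -t = t :=
  (eq_neg_of_add_eq_zero_left (add_self (k := k) t)).symm

omit [CharP k 2] in
lemma cancel_mid [CharP k 2] {M : Type*} [AddCommGroup M] [Module k M] (a b t : M) :
    a + t + (t + b) = a + b := by
  have := add_self (k := k) t
  rw [add_assoc, ← add_assoc t t b, this, zero_add]

instance primA : PrimRel (RA k) where
  comul := by
    rintro a b ⟨⟩
    simp only [map_mul, FreeAlgebra.lift_ι_apply, mul_add, add_mul,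
      Algebra.TensorProduct.tmul_mul_tmul, mul_one, one_mul, axx, TensorProduct.zero_tmul,
      TensorProduct.tmul_zero, zero_add, add_zero, map_zero]
    exact add_self (k := k) _
  counit := by
    rintro a b ⟨⟩
    simp
  antipode := by
    rintro a b ⟨⟩
    simp only [map_mul, FreeAlgebra.lift_ι_apply, map_zero, ← MulOpposite.op_mul, neg_mul_neg,
      axx, MulOpposite.op_zero]

instance primE : PrimRel (RE k) where
  comul := by
    rintro a b ⟨⟩
    · simp only [map_mul, FreeAlgebra.lift_ι_apply, mul_add, add_mul,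
        Algebra.TensorProduct.tmul_mul_tmul, mul_one, one_mul, exx, TensorProduct.zero_tmul,
        TensorProduct.tmul_zero, zero_add, add_zero, map_zero]
      exact add_self (k := k) _
    · simp only [map_mul, FreeAlgebra.lift_ι_apply, mul_add, add_mul,
        Algebra.TensorProduct.tmul_mul_tmul, mul_one, one_mul, eyy, TensorProduct.zero_tmul,
        TensorProduct.tmul_zero, zero_add, add_zero, map_zero]
      exact add_self (k := k) _
    · simp only [map_mul, FreeAlgebra.lift_ι_apply, mul_add, add_mul,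
        Algebra.TensorProduct.tmul_mul_tmul, mul_one, one_mul, ezz]
      exact cancel_mid (k := k) _ _ _
    · simp only [map_mul, map_add, FreeAlgebra.lift_ι_apply, mul_add, add_mul,
        Algebra.TensorProduct.tmul_mul_tmul, mul_one, one_mul, eyx, TensorProduct.add_tmul,
        TensorProduct.tmul_add]
      abel
    · simp only [map_mul, map_add, FreeAlgebra.lift_ι_apply, mul_add, add_mul,
        Algebra.TensorProduct.tmul_mul_tmul, mul_one, one_mul, ezx, TensorProduct.add_tmul,
        TensorProduct.tmul_add]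
      abel
    · simp only [map_mul, map_add, FreeAlgebra.lift_ι_apply, mul_add, add_mul,
        Algebra.TensorProduct.tmul_mul_tmul, mul_one, one_mul, ezy, TensorProduct.add_tmul,
        TensorProduct.tmul_add]
      abel
  counit := by
    rintro a b ⟨⟩ <;> simp
  antipode := by
    rintro a b ⟨⟩
    · simp only [map_mul, FreeAlgebra.lift_ι_apply, map_zero, ← MulOpposite.op_mul, neg_mul_neg,
        exx, MulOpposite.op_zero]
    · simp only [map_mul, FreeAlgebra.lift_ι_apply, map_zero, ← MulOpposite.op_mul, neg_mul_neg,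
        eyy, MulOpposite.op_zero]
    · simp only [map_mul, FreeAlgebra.lift_ι_apply, ← MulOpposite.op_mul, neg_mul_neg,
        ezz]
      rw [neg_self' (k := k) (ez k)]
    · simp only [map_mul, map_add, FreeAlgebra.lift_ι_apply, ← MulOpposite.op_mul, neg_mul_neg,
        eyx, ← MulOpposite.op_add]
      congr 1
      abel
    · simp only [map_mul, map_add, FreeAlgebra.lift_ι_apply, ← MulOpposite.op_mul, neg_mul_neg,
        ezx]
    · simp only [map_mul, map_add, FreeAlgebra.lift_ι_apply, ← MulOpposite.op_mul, neg_mul_neg,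
        ezy]

instance primH (c : k) : PrimRel (RH c) where
  comul := by
    rintro a b ⟨⟩
    · simp only [map_mul, map_smul, FreeAlgebra.lift_ι_apply, mul_add, add_mul,
        Algebra.TensorProduct.tmul_mul_tmul, mul_one, one_mul, huu, smul_add,
        TensorProduct.smul_tmul', TensorProduct.tmul_smul]
      exact cancel_mid (k := k) _ _ _
    · simp only [map_mul, FreeAlgebra.lift_ι_apply, mul_add, add_mul,
        Algebra.TensorProduct.tmul_mul_tmul, mul_one, one_mul, hzz]
      exact cancel_mid (k := k) _ _ _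
    · simp only [map_mul, map_add, FreeAlgebra.lift_ι_apply, mul_add, add_mul,
        Algebra.TensorProduct.tmul_mul_tmul, mul_one, one_mul, hzu, TensorProduct.add_tmul,
        TensorProduct.tmul_add]
      abel
  counit := by
    rintro a b ⟨⟩ <;> simp
  antipode := by
    rintro a b ⟨⟩
    · simp only [map_mul, map_smul, FreeAlgebra.lift_ι_apply, ← MulOpposite.op_mul, neg_mul_neg,
        huu, ← MulOpposite.op_smul]
      rw [neg_self' (k := k) (hz c)]
    · simp only [map_mul, FreeAlgebra.lift_ι_apply, ← MulOpposite.op_mul, neg_mul_neg,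
        hzz]
      rw [neg_self' (k := k) (hz c)]
    · simp only [map_mul, map_add, FreeAlgebra.lift_ι_apply, ← MulOpposite.op_mul, neg_mul_neg,
        hzu]

/-! ### Inclusions -/

/-- `A → E` as an algebra map -/
noncomputable def fA (k : Type) [Field k] [CharP k 2] : PH (RA k) →ₐ[k] PH (RE k) :=
  lft (fun _ => ex k) (by
    rintro a b ⟨⟩
    simp [exx])

/-- `H_c → E` as an algebra map -/
noncomputable def fH (c : k) : PH (RH c) →ₐ[k] PH (RE k) :=
  lft ![ey k + c • ex k, ez k] (by
    rintro a b ⟨⟩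
    · simp only [map_mul, map_smul, FreeAlgebra.lift_ι_apply, Matrix.cons_val_zero,
        Matrix.cons_val_one, mul_add, add_mul, eyy, exx, smul_mul_assoc, mul_smul_comm, eyx,
        smul_add, smul_zero, zero_add, add_zero]
      have := add_self (k := k) (c • (ex k * ey k))
      rw [← add_assoc, this, zero_add]
    · simp [ezz]
    · simp [mul_add, add_mul, ezy, ezx])

@[simp] lemma fA_x : fA k (ax k) = ex k := lft_gen _ _ _

@[simp] lemma fH_u (c : k) : fH c (hu c) = ey k + c • ex k := lft_gen _ _ _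

@[simp] lemma fH_z (c : k) : fH c (hz c) = ez k := lft_gen _ _ _

/-- `A → E` -/
noncomputable def iA (k : Type) [Field k] [CharP k 2] : PH (RA k) →ₐc[k] PH (RE k) :=
  BialgHom.ofAlgHom (fA k)
    (by
      apply hom_ext
      intro i
      fin_cases i
      change cu (RE k) (fA k (ax k)) = cu (RA k) (ax k)
      rw [fA_x, cu_gen, cu_gen])
    (by
      apply hom_ext
      intro i
      fin_cases i
      change Algebra.TensorProduct.map (fA k) (fA k) (cm (RA k) (ax k)) = cm (RE k) (fA k (ax k))
      rw [fA_x, cm_gen, cm_gen]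
      simp)

/-- `H_c → E` -/
noncomputable def iH (c : k) : PH (RH c) →ₐc[k] PH (RE k) :=
  BialgHom.ofAlgHom (fH c)
    (by
      apply hom_ext
      intro i
      fin_cases i
      · change cu (RE k) (fH c (hu c)) = cu (RH c) (hu c)
        rw [fH_u, map_add, map_smul, cu_gen, cu_gen, cu_gen, smul_zero, add_zero]
      · change cu (RE k) (fH c (hz c)) = cu (RH c) (hz c)
        rw [fH_z, cu_gen, cu_gen])
    (by
      apply hom_ext
      intro i
      fin_cases i
      · change Algebra.TensorProduct.map (fH c) (fH c) (cm (RH c) (hu c)) =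
          cm (RE k) (fH c (hu c))
        rw [fH_u, cm_gen, map_add (cm (RE k)), map_smul, cm_gen, cm_gen, map_add,
          Algebra.TensorProduct.map_tmul, Algebra.TensorProduct.map_tmul, fH_u, map_one]
        simp only [TensorProduct.add_tmul, TensorProduct.tmul_add, TensorProduct.smul_tmul',
          TensorProduct.tmul_smul, smul_add]
        abel
      · change Algebra.TensorProduct.map (fH c) (fH c) (cm (RH c) (hz c)) =
          cm (RE k) (fH c (hz c))
        rw [fH_z, cm_gen, cm_gen]
        simp)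

lemma iA_apply (a : PH (RA k)) : iA k a = fA k a := rfl

lemma iH_apply (c : k) (a : PH (RH c)) : iH c a = fH c a := rfl

/-! ### Spanning -/

omit [CharP k 2] in
lemma A_repr (a : PH (RA k)) : ∃ p q : k, a = p • 1 + q • ax k := by
  induction a using induct with
  | halg c => exact ⟨c, 0, by rw [zero_smul, add_zero, Algebra.algebraMap_eq_smul_one]⟩
  | hgen i =>
    fin_cases i
    exact ⟨0, 1, by rw [zero_smul, zero_add, one_smul]; rfl⟩
  | hadd a b ha hb =>
    obtain ⟨p, q, rfl⟩ := ha
    obtain ⟨p', q', rfl⟩ := hb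
    exact ⟨p + p', q + q', by rw [add_smul, add_smul]; abel⟩
  | hmul a b ha hb =>
    obtain ⟨p, q, rfl⟩ := ha
    obtain ⟨p', q', rfl⟩ := hb
    refine ⟨p * p', p * q' + q * p', ?_⟩
    simp only [mul_add, add_mul, smul_mul_smul_comm, mul_one, one_mul, axx, smul_zero, add_zero,
      add_smul]
    abel

omit [CharP k 2] in
/-- A subspace containing `1` and closed under left multiplication by the generators is
everything. -/
lemma top_of_closed {ι : Type} {r : FreeAlgebra k ι → FreeAlgebra k ι → Prop}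
    (W : Submodule k (PH r)) (h1 : 1 ∈ W) (h : ∀ i, ∀ w ∈ W, gen r i * w ∈ W) : W = ⊤ := by
  have key : ∀ a : PH r, ∀ w ∈ W, a * w ∈ W := by
    intro a
    induction a using induct with
    | halg c => exact fun w hw => by rw [← Algebra.smul_def]; exact W.smul_mem c hw
    | hgen i => exact h i
    | hadd a b ha hb => exact fun w hw => by rw [add_mul]; exact W.add_mem (ha w hw) (hb w hw)
    | hmul a b ha hb => exact fun w hw => by rw [mul_assoc]; exact ha _ (hb w hw)
  rw [eq_top_iff]
  intro a _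
  have := key a 1 h1
  rwa [mul_one] at this

omit [CharP k 2] in
lemma H_repr (c : k) (h : PH (RH c)) :
    ∃ p q s t : k, h = p • 1 + q • hu c + s • hz c + t • (hu c * hz c) := by
  let W : Submodule k (PH (RH c)) :=
    { carrier := {h | ∃ p q s t : k, h = p • 1 + q • hu c + s • hz c + t • (hu c * hz c)}
      add_mem' := by
        rintro _ _ ⟨p, q, s, t, rfl⟩ ⟨p', q', s', t', rfl⟩
        exact ⟨p + p', q + q', s + s', t + t', by simp only [add_smul]; abel⟩
      zero_mem' := ⟨0, 0, 0, 0, by simp⟩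
      smul_mem' := by
        rintro a _ ⟨p, q, s, t, rfl⟩
        exact ⟨a * p, a * q, a * s, a * t, by simp only [smul_add, mul_smul]⟩ }
  have hW : W = ⊤ := by
    apply top_of_closed W ⟨1, 0, 0, 0, by simp⟩
    rintro i _ ⟨p, q, s, t, rfl⟩
    fin_cases i
    · refine ⟨0, p, q * c + t * c, s, ?_⟩
      change hu c * _ = _
      simp only [mul_add, mul_smul_comm, mul_one, ← mul_assoc, huu, smul_mul_assoc, hzz, zero_smul,
        add_smul, mul_smul, zero_add]
      abel
    · refine ⟨0, 0, p + s, q + t, ?_⟩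
      change hz c * _ = _
      simp only [mul_add, mul_smul_comm, mul_one, ← mul_assoc, hzu, smul_mul_assoc, hzz, zero_smul,
        add_smul, zero_add]
      rw [mul_assoc (hu c) (hz c) (hz c), hzz]
      abel
  have : h ∈ W := hW ▸ Submodule.mem_top
  exact this

/-- The multiplication map `A ⊗ H_c → E`. -/
noncomputable def mm (c : k) : PH (RA k) ⊗[k] PH (RH c) →ₗ[k] PH (RE k) :=
  LinearMap.mul' k (PH (RE k)) ∘ₗ TensorProduct.map (fA k).toLinearMap (fH c).toLinearMap

lemma mm_tmul (c : k) (a : PH (RA k)) (h : PH (RH c)) : mm c (a ⊗ₜ h) = fA k a * fH c h := rfl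

lemma mm_range (c : k) : LinearMap.range (mm c) = ⊤ := by
  have hx : ∀ w ∈ LinearMap.range (mm c), ex k * w ∈ LinearMap.range (mm c) := by
    rintro _ ⟨t, rfl⟩
    induction t using TensorProduct.induction_on with
    | zero => rw [map_zero, mul_zero]; exact Submodule.zero_mem _
    | tmul a h => exact ⟨(ax k * a) ⊗ₜ h, by rw [mm_tmul, mm_tmul, map_mul, fA_x, mul_assoc]⟩
    | add s t hs ht => rw [map_add, mul_add]; exact Submodule.add_mem _ hs ht
  have hzW : ∀ w ∈ LinearMap.range (mm c), ez k * w ∈ LinearMap.range (mm c) := by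
    rintro _ ⟨t, rfl⟩
    induction t using TensorProduct.induction_on with
    | zero => rw [map_zero, mul_zero]; exact Submodule.zero_mem _
    | tmul a h =>
      refine ⟨a ⊗ₜ (hz c * h), ?_⟩
      rw [mm_tmul, mm_tmul, map_mul, fH_z]
      obtain ⟨p, q, rfl⟩ := A_repr a
      simp only [map_add, map_smul, map_one, fA_x, add_mul, mul_add, smul_mul_assoc,
        mul_smul_comm, one_mul, ← mul_assoc, ezx, mul_one]
    | add s t hs ht => rw [map_add, mul_add]; exact Submodule.add_mem _ hs ht
  have hu' : ∀ w ∈ LinearMap.range (mm c), (ey k + c • ex k) * w ∈ LinearMap.range (mm c) := by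
    rintro _ ⟨t, rfl⟩
    induction t using TensorProduct.induction_on with
    | zero => rw [map_zero, mul_zero]; exact Submodule.zero_mem _
    | tmul a h =>
      obtain ⟨p, q, rfl⟩ := A_repr a
      refine ⟨(p • 1 + q • ax k) ⊗ₜ (hu c * h) + (q • 1) ⊗ₜ (hz c * h), ?_⟩
      rw [map_add, mm_tmul, mm_tmul, mm_tmul, map_mul, map_mul, fH_z, fH_u]
      have h1 : (ey k + c • ex k) * ex k = ex k * (ey k + c • ex k) + ez k := by
        simp only [mul_add, add_mul, smul_mul_assoc, mul_smul_comm, exx, smul_zero, add_zero, eyx]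
      simp only [map_add, map_smul, map_one, fA_x]
      have h2 : (ey k + c • ex k) * ((p • (1 : PH (RE k)) + q • ex k) * fH c h) =
          p • ((ey k + c • ex k) * fH c h) + q • (((ey k + c • ex k) * ex k) * fH c h) := by
        rw [add_mul (p • (1 : PH (RE k))), smul_mul_assoc, smul_mul_assoc, one_mul, mul_add,
          mul_smul_comm, mul_smul_comm, mul_assoc]
      rw [h2, h1, add_mul (p • (1 : PH (RE k))), smul_mul_assoc, smul_mul_assoc, smul_mul_assoc,
        one_mul, one_mul, add_mul (ex k * (ey k + c • ex k)), smul_add, mul_assoc]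
      abel
    | add s t hs ht => rw [map_add, mul_add]; exact Submodule.add_mem _ hs ht
  apply top_of_closed
  · exact ⟨1 ⊗ₜ 1, by rw [mm_tmul, map_one, map_one, mul_one]⟩
  · intro i w hw
    fin_cases i
    · exact hx w hw
    · change ey k * w ∈ _
      have : ey k * w = (ey k + c • ex k) * w - c • (ex k * w) := by
        rw [add_mul, smul_mul_assoc, add_sub_cancel_right]
      rw [this]
      exact Submodule.sub_mem _ (hu' w hw) (Submodule.smul_mem _ _ (hx w hw))
    · exact hzW w hw

omit [CharP k 2] in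
lemma A_span : (⊤ : Submodule k (PH (RA k))) = Submodule.span k (Set.range ![1, ax k]) := by
  refine (eq_top_iff.2 fun a _ => ?_).symm
  obtain ⟨p, q, rfl⟩ := A_repr a
  exact Submodule.add_mem _ (Submodule.smul_mem _ _ (Submodule.subset_span ⟨0, rfl⟩))
    (Submodule.smul_mem _ _ (Submodule.subset_span ⟨1, rfl⟩))

omit [CharP k 2] in
lemma H_span (c : k) : (⊤ : Submodule k (PH (RH c))) =
    Submodule.span k (Set.range ![1, hu c, hz c, hu c * hz c]) := by
  refine (eq_top_iff.2 fun a _ => ?_).symm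
  obtain ⟨p, q, s, t, rfl⟩ := H_repr c a
  refine Submodule.add_mem _ (Submodule.add_mem _ (Submodule.add_mem _ ?_ ?_) ?_) ?_
  · exact Submodule.smul_mem _ _ (Submodule.subset_span ⟨0, rfl⟩)
  · exact Submodule.smul_mem _ _ (Submodule.subset_span ⟨1, rfl⟩)
  · exact Submodule.smul_mem _ _ (Submodule.subset_span ⟨2, rfl⟩)
  · exact Submodule.smul_mem _ _ (Submodule.subset_span ⟨3, rfl⟩)

instance finA : Module.Finite k (PH (RA k)) :=
  ⟨by rw [A_span]; exact Submodule.fg_span (Set.finite_range _)⟩

instance finH (c : k) : Module.Finite k (PH (RH c)) :=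
  ⟨by rw [H_span]; exact Submodule.fg_span (Set.finite_range _)⟩

instance finE : Module.Finite k (PH (RE k)) :=
  Module.Finite.of_surjective (mm (0 : k)) (LinearMap.range_eq_top.1 (mm_range 0))

omit [CharP k 2] in
lemma A_finrank : Module.finrank k (PH (RA k)) ≤ 2 := by
  have := finrank_range_le_card (R := k) ![1, ax k]
  rw [Set.finrank, ← A_span, finrank_top] at this
  simpa using this

omit [CharP k 2] in
lemma H_finrank (c : k) : Module.finrank k (PH (RH c)) ≤ 4 := by
  have := finrank_range_le_card (R := k) ![1, hu c, hz c, hu c * hz c]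
  rw [Set.finrank, ← H_span, finrank_top] at this
  simpa using this

/-- Representation with `z = 1`. -/
noncomputable def rho1 (k : Type) [Field k] [CharP k 2] :
    PH (RE k) →ₐ[k] Matrix (Fin 2) (Fin 2) k :=
  lft ![!![0, 1; 0, 0], !![0, 0; 1, 0], 1] (by
    rintro a b ⟨⟩
    · simp only [map_mul, FreeAlgebra.lift_ι_apply, map_zero]
      ext i j; fin_cases i <;> fin_cases j <;> simp
    · simp only [map_mul, FreeAlgebra.lift_ι_apply, map_zero]
      ext i j; fin_cases i <;> fin_cases j <;> simp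
    · simp
    · simp only [map_mul, map_add, FreeAlgebra.lift_ι_apply, map_zero]
      have : (1 : k) + 1 = 0 := CharTwo.add_self_eq_zero 1
      ext i j; fin_cases i <;> fin_cases j <;> simp [this]
    · simp
    · simp)

/-- Representation with `z = 0`. -/
noncomputable def rho2 (k : Type) [Field k] [CharP k 2] :
    PH (RE k) →ₐ[k] DualNumber (DualNumber k) :=
  lft ![TrivSqZeroExt.inl DualNumber.eps, DualNumber.eps, 0] (by
    rintro a b ⟨⟩
    · simp [← TrivSqZeroExt.inl_mul]
    · simp
    · simp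
    · simp only [map_mul, map_add, FreeAlgebra.lift_ι_apply]
      ext <;> simp
    · simp
    · simp)

lemma E_indep : LinearIndependent k ![1, ex k, ey k, ex k * ey k, ez k, ex k * ez k, ey k * ez k,
    ex k * ey k * ez k] := by
  rw [Fintype.linearIndependent_iff]
  intro g hg
  rw [Fin.sum_univ_eight] at hg
  simp only [Matrix.cons_val] at hg
  have h2 := congrArg (rho2 k) hg
  have h1 := congrArg (rho1 k) hg
  simp only [map_add, map_smul, map_mul, map_one, map_zero, rho2, lft_gen, Matrix.cons_val] at h2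
  simp only [map_add, map_smul, map_mul, map_one, map_zero, rho1, lft_gen, Matrix.cons_val] at h1
  have a0 := congrArg (fun z => TrivSqZeroExt.fst (TrivSqZeroExt.fst z)) h2
  have a1 := congrArg (fun z => TrivSqZeroExt.snd (TrivSqZeroExt.fst z)) h2
  have a2 := congrArg (fun z => TrivSqZeroExt.fst (TrivSqZeroExt.snd z)) h2
  have a3 := congrArg (fun z => TrivSqZeroExt.snd (TrivSqZeroExt.snd z)) h2
  have b0 := congrFun (congrFun h1 0) 0
  have b1 := congrFun (congrFun h1 0) 1
  have b2 := congrFun (congrFun h1 1) 0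
  have b3 := congrFun (congrFun h1 1) 1
  simp at a0 a1 a2 a3
  simp [a0, a1, a2, a3] at b0 b1 b2 b3
  intro i
  fin_cases i <;> simp_all

lemma E_finrank : 8 ≤ Module.finrank k (PH (RE k)) := by
  simpa using E_indep.fintype_card_le_finrank (R := k)

theorem mm_bijective (c : k) : Function.Bijective (mm c) := by
  have hs : Function.Surjective (mm c) := LinearMap.range_eq_top.1 (mm_range c)
  have h1 : Module.finrank k (PH (RA k) ⊗[k] PH (RH c)) ≤ 8 := by
    rw [Module.finrank_tensorProduct]
    calc _ ≤ 2 * 4 := Nat.mul_le_mul A_finrank (H_finrank c)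
      _ = 8 := by norm_num
  have h2 : Module.finrank k (PH (RE k)) ≤ Module.finrank k (PH (RA k) ⊗[k] PH (RH c)) :=
    LinearMap.finrank_le_finrank_of_surjective hs
  have h3 := E_finrank (k := k)
  exact ⟨(LinearMap.injective_iff_surjective_of_finrank_eq_finrank (by omega)).2 hs, hs⟩

theorem iA_injective : Function.Injective (iA k) := by
  rw [injective_iff_map_eq_zero]
  intro a ha
  have h1 : mm (0 : k) (a ⊗ₜ 1) = 0 := by
    rw [mm_tmul, ← iA_apply, ha, zero_mul]
  have h2 : a ⊗ₜ[k] (1 : PH (RH (0 : k))) = 0 := by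
    apply (mm_bijective (0 : k)).1
    rw [h1, map_zero]
  have h3 := congrArg (fun t => TensorProduct.rid k (PH (RA k))
    (TensorProduct.map LinearMap.id (cu (RH (0 : k))).toLinearMap t)) h2
  simpa using h3

theorem iH_injective (c : k) : Function.Injective (iH c) := by
  rw [injective_iff_map_eq_zero]
  intro a ha
  have h1 : mm c (1 ⊗ₜ a) = 0 := by
    rw [mm_tmul, ← iH_apply, ha, mul_zero]
  have h2 : (1 : PH (RA k)) ⊗ₜ[k] a = 0 := by
    apply (mm_bijective c).1
    rw [h1, map_zero]
  have h3 := congrArg (fun t => TensorProduct.lid k (PH (RH c))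
    (TensorProduct.map (cu (RA k)).toLinearMap LinearMap.id t)) h2
  simpa using h3

/-! ### Primitive elements of `H_c` and isomorphisms -/

/-- `u ↦ ε`, `z ↦ 0` -/
noncomputable def s0 (c : k) : PH (RH c) →ₐ[k] DualNumber k :=
  lft ![DualNumber.eps, 0] (by
    rintro a b ⟨⟩ <;> simp)

/-- `u ↦ (0 c; 1 0)`, `z ↦ 1` -/
noncomputable def s1 (c : k) : PH (RH c) →ₐ[k] Matrix (Fin 2) (Fin 2) k :=
  lft ![!![0, c; 1, 0], 1] (by
    rintro a b ⟨⟩
    · simp only [map_mul, map_smul, FreeAlgebra.lift_ι_apply]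
      ext i j; fin_cases i <;> fin_cases j <;> simp
    · simp
    · simp)

omit [CharP k 2] in
lemma coords (c p q s t : k) (h : p • 1 + q • hu c + s • hz c + t • (hu c * hz c) = 0) :
    p = 0 ∧ q = 0 ∧ s = 0 ∧ t = 0 := by
  have h2 := congrArg (s0 c) h
  have h1 := congrArg (s1 c) h
  simp only [map_add, map_smul, map_mul, map_one, map_zero, s0, lft_gen, Matrix.cons_val] at h2
  simp only [map_add, map_smul, map_mul, map_one, map_zero, s1, lft_gen, Matrix.cons_val] at h1
  have a0 := congrArg (fun z => TrivSqZeroExt.fst z) h2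
  have a1 := congrArg (fun z => TrivSqZeroExt.snd z) h2
  have b0 := congrFun (congrFun h1 0) 0
  have b2 := congrFun (congrFun h1 1) 0
  simp at a0 a1
  simp [a0, a1] at b0 b2
  exact ⟨a0, a1, b0, b2⟩

/-- first functional: coefficient of `u` for `z = 0` -/
noncomputable def fl (c : k) : PH (RH c) →ₗ[k] k :=
  TrivSqZeroExt.sndHom k k ∘ₗ (s0 c).toLinearMap

/-- second functional -/
noncomputable def fm (c : k) : PH (RH c) →ₗ[k] k :=
  Matrix.entryLinearMap k k 0 0 ∘ₗ (s1 c).toLinearMap - (cu (RH c)).toLinearMap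

omit [CharP k 2] in
lemma fl_vals (c : k) : fl c 1 = 0 ∧ fl c (hu c) = 1 ∧ fl c (hz c) = 0 ∧
    fl c (hu c * hz c) = 0 := by
  refine ⟨?_, ?_, ?_, ?_⟩ <;> simp [fl, s0]

lemma fm_vals (c : k) : fm c 1 = 0 ∧ fm c (hu c) = 0 ∧ fm c (hz c) = 1 ∧
    fm c (hu c * hz c) = 0 := by
  refine ⟨?_, ?_, ?_, ?_⟩ <;> simp [fm, s1]

/-- primitive elements -/
lemma prim (c : k) (h : PH (RH c)) (hp : cm (RH c) h = h ⊗ₜ 1 + 1 ⊗ₜ h) :
    ∃ q s : k, h = q • hu c + s • hz c := by
  obtain ⟨p, q, s, t, rfl⟩ := H_repr c h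
  have h1 := congrArg (fun t => TensorProduct.lid k k (TensorProduct.map
    (cu (RH c)).toLinearMap (cu (RH c)).toLinearMap t)) hp
  have h2 := congrArg (fun t => TensorProduct.lid k k (TensorProduct.map
    (fl c) (fm c) t)) hp
  obtain ⟨l1, l2, l3, l4⟩ := fl_vals c
  obtain ⟨m1, m2, m3, m4⟩ := fm_vals c
  have hp0 : p = 0 := by
    simp [Algebra.TensorProduct.one_def, mul_add, add_mul] at h1
    exact h1
  have ht0 : t = 0 := by
    simp [Algebra.TensorProduct.one_def, mul_add, add_mul, l1, l2, l3, l4, m1, m2, m3, m4] at h2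
    exact h2
  exact ⟨q, s, by rw [hp0, ht0, zero_smul, zero_smul, zero_add, add_zero]⟩

/-- squares of primitive elements -/
lemma sq_prim (c q s : k) : (q • hu c + s • hz c) * (q • hu c + s • hz c) =
    (q ^ 2 * c + s ^ 2) • hz c := by
  simp only [mul_add, add_mul, smul_mul_smul_comm, huu, hzz, hzu, smul_smul]
  have := add_self (k := k) ((q * s) • (hu c * hz c))
  rw [mul_comm s q, cancel_mid (k := k), ← add_smul]
  congr 1
  ring

/-- An isomorphism of the Hopf algebras `H_c` and `H_{c'}`. -/
theorem iso_rel (c c' : k) (φ : PH (RH c) ≃ₐc[k] PH (RH c')) :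
    ∃ α β : k, c = α ^ 2 * c' + β ^ 2 := by
  have hcm : ∀ h : PH (RH c), cm (RH c') (φ h) = TensorProduct.map (φ : PH (RH c) →ₗ[k] PH (RH c'))
      (φ : PH (RH c) →ₗ[k] PH (RH c')) (cm (RH c) h) := by
    intro h
    exact (CoalgHomClass.map_comp_comul_apply φ h).symm
  have hprim : ∀ i, cm (RH c') (φ (gen (RH c) i)) =
      φ (gen (RH c) i) ⊗ₜ 1 + 1 ⊗ₜ φ (gen (RH c) i) := by
    intro i
    rw [hcm, cm_gen, map_add, TensorProduct.map_tmul, TensorProduct.map_tmul]
    have : (φ : PH (RH c) →ₗ[k] PH (RH c')) 1 = 1 := map_one φ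
    rw [this]
    rfl
  obtain ⟨q, s, hz'⟩ := prim c' _ (hprim 1)
  obtain ⟨q', s', hu'⟩ := prim c' _ (hprim 0)
  have hzsq : φ (hz c) * φ (hz c) = φ (hz c) := by rw [← map_mul, hzz]
  rw [hz', sq_prim] at hzsq
  obtain ⟨-, h1, h2, -⟩ := coords c' 0 (-q) (q ^ 2 * c' + s ^ 2 - s) 0 (by
    rw [sub_smul, hzsq, neg_smul]
    simp)
  have hq : q = 0 := neg_eq_zero.1 h1
  have hs : s = 1 := by
    rw [hq] at h2
    have h3 : s * (s - 1) = 0 := by linear_combination h2
    rcases mul_eq_zero.1 h3 with h4 | h4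
    · exfalso
      rw [hq, h4, zero_smul, zero_smul, add_zero] at hz'
      have h5 : hz c = 0 := (map_eq_zero_iff φ φ.injective).1 hz'
      obtain ⟨-, -, h6, -⟩ := coords c 0 0 1 0 (by simp [h5])
      exact one_ne_zero h6
    · linear_combination h4
  have husq : φ (hu c) * φ (hu c) = c • φ (hz c) := by rw [← map_mul, huu, map_smul]
  rw [hu', sq_prim, hz', hq, hs, zero_smul, zero_add, one_smul] at husq
  obtain ⟨-, -, h7, -⟩ := coords c' 0 0 (q' ^ 2 * c' + s' ^ 2 - c) 0 (by
    rw [sub_smul, husq]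
    simp)
  exact ⟨q', s', by linear_combination -h7⟩

end Gen

/-! ### The field `𝔽₂(s,t)` -/

/-- The polynomial ring `𝔽₂[s,t]`. -/
abbrev P2 : Type := MvPolynomial (Fin 2) (ZMod 2)

/-- The field `𝔽₂(s,t)`. -/
abbrev K2 : Type := FractionRing P2

instance : CharP K2 2 := charP_of_injective_algebraMap (IsFractionRing.injective P2 K2) 2

lemma indep_poly (P Q R : P2) (h : P ^ 2 * MvPolynomial.X 0 + Q ^ 2 * MvPolynomial.X 1 + R ^ 2 = 0) :
    P = 0 ∧ Q = 0 := by
  have h2 : (2 : P2) = 0 := by
    have : ((2 : ℕ) : P2) = 0 := CharP.cast_eq_zero P2 2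
    simpa using this
  constructor
  · have := congrArg (MvPolynomial.pderiv 0) h
    simp [Derivation.leibniz, Derivation.leibniz_pow, h2] at this
    exact this
  · have := congrArg (MvPolynomial.pderiv 1) h
    simp [Derivation.leibniz, Derivation.leibniz_pow, h2] at this
    exact this

/-- The element `s`. -/
noncomputable def sv : K2 := algebraMap P2 K2 (MvPolynomial.X 0)
/-- The element `t`. -/
noncomputable def tv : K2 := algebraMap P2 K2 (MvPolynomial.X 1)

lemma indep_frac (p q r : K2) (h : p ^ 2 * sv + q ^ 2 * tv + r ^ 2 = 0) : p = 0 ∧ q = 0 := by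
  obtain ⟨P, D1, hD1, rfl⟩ := IsFractionRing.div_surjective (A := P2) p
  obtain ⟨Q, D2, hD2, rfl⟩ := IsFractionRing.div_surjective (A := P2) q
  obtain ⟨R, D3, hD3, rfl⟩ := IsFractionRing.div_surjective (A := P2) r
  have e1 : algebraMap P2 K2 D1 ≠ 0 := by
    simpa using nonZeroDivisors.ne_zero hD1
  have e2 : algebraMap P2 K2 D2 ≠ 0 := by
    simpa using nonZeroDivisors.ne_zero hD2
  have e3 : algebraMap P2 K2 D3 ≠ 0 := by
    simpa using nonZeroDivisors.ne_zero hD3
  have key : (P * D2 * D3) ^ 2 * MvPolynomial.X 0 + (Q * D1 * D3) ^ 2 * MvPolynomial.X 1 +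
      (R * D1 * D2) ^ 2 = 0 := by
    apply IsFractionRing.injective P2 K2
    rw [map_zero]
    simp only [map_add, map_mul, map_pow]
    have h' := h
    unfold sv tv at h'
    field_simp at h'
    linear_combination h'
  obtain ⟨h1, h2⟩ := indep_poly _ _ _ key
  have hD1' := nonZeroDivisors.ne_zero hD1
  have hD2' := nonZeroDivisors.ne_zero hD2
  have hD3' := nonZeroDivisors.ne_zero hD3
  have hP : P = 0 := by
    rcases mul_eq_zero.1 h1 with h3 | h3
    · rcases mul_eq_zero.1 h3 with h4 | h4
      · exact h4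
      · exact absurd h4 hD2'
    · exact absurd h3 hD3'
  have hQ : Q = 0 := by
    rcases mul_eq_zero.1 h2 with h3 | h3
    · rcases mul_eq_zero.1 h3 with h4 | h4
      · exact h4
      · exact absurd h4 hD1'
    · exact absurd h3 hD3'
  rw [hP, hQ]
  simp

/-- The parameters. -/
noncomputable def cc (n : ℕ) : K2 := sv + (tv ^ n) ^ 2 * tv

lemma cc_ne (m n : ℕ) (hmn : m ≠ n) (α β : K2) : cc m ≠ α ^ 2 * cc n + β ^ 2 := by
  intro h
  have h2 : (2 : K2) = 0 := CharTwo.two_eq_zero
  obtain ⟨h3, h4⟩ := indep_frac (1 + α) (tv ^ m + α * tv ^ n) β (by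
    unfold cc at h
    linear_combination h + (α * sv + α ^ 2 * sv + β ^ 2 + (tv ^ m * (α * tv ^ n) + α ^ 2 * (tv ^ n) ^ 2) * tv) * h2)
  have hα : α = 1 := by linear_combination h3 - h2
  rw [hα, one_mul] at h4
  have h5 : tv ^ m = tv ^ n := by linear_combination h4 - tv ^ n * h2
  have h6 : (MvPolynomial.X 1 : P2) ^ m = MvPolynomial.X 1 ^ n := by
    apply IsFractionRing.injective P2 K2
    rw [map_pow, map_pow]
    exact h5
  have h7 := congrArg MvPolynomial.totalDegree h6
  rw [MvPolynomial.totalDegree_X_pow, MvPolynomial.totalDegree_X_pow] at h7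
  exact hmn h7

end Pool.Agent.X277.FI
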